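import Mathlib
import Pool.Agent.R890.FF.Blk
import Pool.Agent.T9h67.DOM.Dia3

set_option autoImplicit false

/-!
# Cographic tangential 2-blocks of graphs with diameter at most three (MP_aa6b05_co)

There are only finitely many cographic tangential 2-blocks which come from graphs of diameter at
most three, whatever the domination number is: each has at most `2 ^ 150000` elements.  More
generally, if any two vertices which are not dominated by `k` given vertices have distance at most
three, then a tangential 2-block has at most `2 ^ 150000 * (k + 1) ^ 3` elements, and every 2-block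
of this kind has a RESTRICTION with at most so many elements which is a 2-block.  Neither the rank
nor the domination number of these graphs is bounded: a graph of diameter three can have a
domination number of the order of the square root of the number of its vertices.

More generally it is sufficient that the distance is at most three after circuits with at most four
edges have been contracted as long as possible (`Tied`, `Near`).

Proof.  Let `H` be a graph obtained from `G` by identification of vertices without nowhere-zero
4-flow and without Petersen quotient, all of whose proper quotients have a flow (starting library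
`R890/FF`), with `n` vertices.  `H` has no circuit with at most four edges, all degrees are at least
three, and every set `W` of vertices spans at most `2 |W| - 3` edges.  Let `D` consist of the images
of the `k` vertices and all vertices of degree at least `t`, and let `R` be the set of the `m`
vertices not dominated by `D`.

(1) `m ^ 2 ≤ 7 t (5 m + 4 |D|)`: any two vertices of `R` are joined by a path of three edges, which
avoids `D`; so the number of the pairs is at most a constant times the sum of `a x * a y` over the
edges `x y`, where `a x < t` is the number of the neighbours of `x` in `R`; this sum is estimated with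
the sparseness (every set has a vertex with at most three neighbours in it).

(2) `n ≤ 161 |D| ^ 3 + (24 |D| + 2) m`: this is a version of the theorem on graphs with domination
number `k` (`DominationFinite`) in which `m` vertices are not dominated.

(3) The numbers `t = 2 ^ i` with `i < 48384` are tested.  If for each of them the number of the
vertices of degree at least `t` were larger than a constant times `n / t` then the sum of the
degrees would be larger than `4 n`.  So there is a `t` for which `|D|` is at most a small multiple of
`n / t`, if `n` is large, and (1) and (2) bound `n` by `2992 (k + 1) ^ 3 * P ^ 3` with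
`P = 2 ^ 48384`.
-/

namespace Pool.Agent.Results.MP_aa6b05_co.DiameterThree

/-- The incidence vector of the vertex `v` over GF(2): the coordinate of an edge is the number of
its ends which are `v`, modulo 2 (so loops give 0). -/
def star {V E : Type} [DecidableEq V] (src dst : E → V) (v : V) : E → ZMod 2 :=
  fun e => (if src e = v then 1 else 0) + (if dst e = v then 1 else 0)

/-- The vectors `vec e` represent the cographic matroid of the graph: the linear relations between
them are exactly the elements of the cut space, which is spanned by the incidence vectors. -/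
def RepresentsCographic {V E : Type} [DecidableEq V] [Fintype E] (src dst : E → V) {n : ℕ}
    (vec : E → Fin n → ZMod 2) : Prop :=
  ∀ x : E → ZMod 2, ∑ e, x e • vec e = 0 ↔
    x ∈ Submodule.span (ZMod 2) (Set.range (star src dst))

/-- The simple matroid represented by the set `S` of vectors over GF(2) is a 2-block: `S` has no
zero vector and no linear map to the plane over GF(2) is nonzero on all of `S`. -/
def IsTwoBlock {n : ℕ} (S : Set (Fin n → ZMod 2)) : Prop :=
  (0 : Fin n → ZMod 2) ∉ S ∧
    ¬ ∃ L : (Fin n → ZMod 2) →ₗ[ZMod 2] (Fin 2 → ZMod 2), ∀ s ∈ S, L s ≠ 0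

/-- `S` represents a tangential 2-block: it is a 2-block, and no proper minor without loops
(contract `C`, keep `T`) is a 2-block. This is the hypothesis of the frozen statement S10691. -/
def IsTangential {n : ℕ} (S : Set (Fin n → ZMod 2)) : Prop :=
  IsTwoBlock S ∧
    ∀ C T : Set (Fin n → ZMod 2), C ⊆ S → T ⊆ S → T ≠ S →
      (∀ t ∈ T, t ∉ Submodule.span (ZMod 2) C) →
      ∃ L : (Fin n → ZMod 2) →ₗ[ZMod 2] (Fin 2 → ZMod 2),
        (∀ c ∈ C, L c = 0) ∧ ∀ t ∈ T, L t ≠ 0

/-- The edge `e` joins the vertices `x` and `y`. -/
def Joins {V E : Type} (src dst : E → V) (e : E) (x y : V) : Prop :=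
  (src e = x ∧ dst e = y) ∨ (src e = y ∧ dst e = x)

/-- The vertices `x` and `y` are identified when circuits with at most four edges are contracted
as long as possible: the smallest equivalence relation such that, if `k ≤ 4` different edges
`e 0, …, e (k - 1)` join `x i` and `y i`, and `y i` is equivalent to `x (i + 1 mod k)`, then `x i` and
`y i` are equivalent. -/
inductive Tied {V E : Type} (src dst : E → V) : V → V → Prop
  | refl (x : V) : Tied src dst x x
  | symm (x y : V) : Tied src dst x y → Tied src dst y x
  | trans (x y z : V) : Tied src dst x y → Tied src dst y z → Tied src dst x z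
  | circuit (k : ℕ) (hk : k ≤ 4) (e : ℕ → E) (he : ∀ i < k, ∀ j < k, e i = e j → i = j)
      (x y : ℕ → V) (hxy : ∀ i < k, Joins src dst (e i) (x i) (y i))
      (hc : ∀ i < k, Tied src dst (y i) (x ((i + 1) % k))) (i : ℕ) (hi : i < k) :
      Tied src dst (x i) (y i)

/-- The vertices `x` and `y` are equal or joined by an edge, up to the contraction of short
circuits: `x` is tied to `y`, or `x` is tied to an end `x'` of an edge whose other end `y'` is tied
to `y`. -/
def Near {V E : Type} (src dst : E → V) (x y : V) : Prop :=
  Tied src dst x y ∨ ∃ e x' y', Joins src dst e x' y' ∧ Tied src dst x x' ∧ Tied src dst y' y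

/-- The vertices `x` and `y` have distance at most three, up to the contraction of short
circuits. -/
def Three {V E : Type} (src dst : E → V) (x y : V) : Prop :=
  ∃ z w, Near src dst x z ∧ Near src dst z w ∧ Near src dst w y

/-- Let `S` be a set of vectors over GF(2) which represents the cographic matroid of a graph
(parallel elements are represented by the same vector), and let `d 0, …, d (k - 1)` be vertices.
Suppose that any two vertices `x` and `y` have distance at most three, up to the contraction of
circuits with at most four edges, unless one of them is one of the `d i` or joined to one of them by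
an edge, up to such contractions (for `k = 0` this holds if the graph has diameter at most three).
If `S` is a 2-block then it contains a 2-block `T` with at most `2 ^ 150000 * (k + 1) ^ 3` elements;
if `S` is a tangential 2-block then `S` has at most `2 ^ 150000 * (k + 1) ^ 3` elements. -/
theorem result :
    ∀ (n : ℕ) (S : Set (Fin n → ZMod 2)) (V E : Type) [Fintype V] [DecidableEq V] [Fintype E]
      [DecidableEq E] (src dst : E → V) (vec : E → Fin n → ZMod 2) (k : ℕ) (d : Fin k → V),
      RepresentsCographic src dst vec → Set.range vec = S →
      (∀ x y, (∃ i, Near src dst x (d i)) ∨ (∃ i, Near src dst y (d i)) ∨ Three src dst x y) →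
      (IsTwoBlock S → ∃ T ⊆ S, IsTwoBlock T ∧ T.ncard ≤ 2 ^ 150000 * (k + 1) ^ 3) ∧
      (IsTangential S → S.ncard ≤ 2 ^ 150000 * (k + 1) ^ 3) := by
  classical
  intro n S V E _ _ _ _ src dst vec k d hv hr h3
  have hT : ∀ x y, Tied src dst x y → Pool.Agent.T9h67.DOM.Tied src dst x y := by
    intro x y h
    induction h with
    | refl x => exact .refl x
    | symm x y _ ih => exact .symm x y ih
    | trans x y z _ _ ih1 ih2 => exact .trans x y z ih1 ih2
    | circuit k hk e he x y hxy _ i hi ih => exact .circuit k hk e he x y hxy ih i hi
  have hN : ∀ x y, Near src dst x y → Pool.Agent.T9h67.DOM.Near src dst x y := by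
    rintro x y (h | ⟨e, x', y', h4, h5, h6⟩)
    · exact Or.inl (hT _ _ h)
    · exact Or.inr ⟨e, x', y', h4, hT _ _ h5, hT _ _ h6⟩
  have hd : ∀ x y, (∃ i, Pool.Agent.T9h67.DOM.Near src dst x (d i)) ∨
      (∃ i, Pool.Agent.T9h67.DOM.Near src dst y (d i)) ∨
      ∃ z w, Pool.Agent.T9h67.DOM.Near src dst x z ∧ Pool.Agent.T9h67.DOM.Near src dst z w ∧
        Pool.Agent.T9h67.DOM.Near src dst w y := by
    intro x y
    rcases h3 x y with ⟨i, hi⟩ | ⟨i, hi⟩ | ⟨z, w, h4, h5, h6⟩
    · exact Or.inl ⟨i, hN _ _ hi⟩
    · exact Or.inr (Or.inl ⟨i, hN _ _ hi⟩)
    · exact Or.inr (Or.inr ⟨z, w, hN _ _ h4, hN _ _ h5, hN _ _ h6⟩)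
  obtain ⟨M, hM⟩ : ∃ M, M = 2 ^ 150000 * (k + 1) ^ 3 := ⟨_, rfl⟩
  have hM15 : 15 ≤ M := by
    rw [hM]
    have e1 : (15 : ℕ) ≤ 2 ^ 4 := by norm_num
    have e2 : (2 : ℕ) ^ 4 ≤ 2 ^ 150000 := Nat.pow_le_pow_right Nat.two_pos (by norm_num)
    have e3 : 1 ≤ (k + 1) ^ 3 := Nat.one_le_pow _ _ (Nat.succ_pos k)
    exact e1.trans (e2.trans (Nat.le_mul_of_pos_right _ e3))
  rw [← hM]
  have main : IsTwoBlock S → ∃ T ⊆ S, IsTwoBlock T ∧ T.ncard ≤ M := by
    intro h
    obtain ⟨T, h4, h5, h6⟩ := Pool.Agent.T9h67.DOM.block_gen
      (hv : Pool.Agent.TH676.Blk.RepCo src dst vec) hr hM15 (fun a b c => by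
        obtain ⟨π, h7, h8⟩ := Pool.Agent.T9h67.DOM.dia_quot src dst a b c d hd rfl
        refine ⟨π, h7, ?_⟩
        rw [hM]
        exact h8.trans (Pool.Agent.T9h67.DOM.big_const _ rfl)) h.1 h.2
    exact ⟨T, h4, ⟨fun h7 => h.1 (h4 h7), h5⟩, h6⟩
  refine ⟨main, ?_⟩
  rintro ⟨h2, htan⟩
  obtain ⟨T, h4, h5, h6⟩ := main h2
  by_cases hTS : T = S
  · rw [← hTS]
    exact h6
  · exfalso
    obtain ⟨L, -, hL⟩ := htan ∅ T (Set.empty_subset _) h4 hTS (fun t ht h7 => by
      rw [Submodule.span_empty, Submodule.mem_bot] at h7
      exact h5.1 (h7 ▸ ht))
    exact h5.2 ⟨L, hL⟩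

end Pool.Agent.Results.MP_aa6b05_co.DiameterThree
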