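import Mathlib
import Pool.Agent.R890.FF.Blk
import Pool.Agent.T9h67.DOM.Tied

set_option autoImplicit false

/-!
# Cographic 2-blocks of graphs which are dominated by three vertices (MP_aa6b05_co)

Let `S` represent over GF(2) the cographic matroid `M*(G)` of a graph `G` with domination number at
most three: there are three vertices such that every other vertex is joined to one of them by an
edge.  If `S` is a 2-block then `S` has a RESTRICTION `M*(P₁₀)` (no contraction is needed), and if it
is tangential it is `M*(P₁₀)`.  In terms of flows: every bridgeless multigraph with domination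
number at most three has a nowhere-zero 4-flow or can be contracted to the Petersen graph (which
itself has domination number three).  The order, the rank, the degrees and the number of vertices
of odd degree are unbounded.

More generally it is sufficient that three vertices dominate after circuits with at most four edges
have been contracted as long as possible (`Tied`, `TiedAdj`): every vertex is tied to one of three
vertices `d i`, or a vertex tied to it is joined by an edge to a vertex tied to `d i`.

Proof.  A 2-block has no zero vector, so `G` has no isthmus, and it has no flow over the group of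
order four which is nowhere zero.  Let `H` be a graph obtained from `G` by identification of
vertices without such a flow and without Petersen quotient, all of whose proper quotients have a
flow (starting library `R890/FF`).  `H` has no circuit with at most four edges, all degrees are at
least three, and at least 18 vertices have odd degree.  The images `d 0, d 1, d 2` of the three
vertices dominate `H`.  A neighbour of an outer vertex `v` is equal or adjacent to a `d i`, and
different neighbours need different `i`; so all outer vertices have degree three, the `d i` are not
adjacent, and each outer vertex is adjacent to exactly one `d i` or to all three; in the first case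
it has one neighbour in each of the two other classes.  So the outer vertices form circuits of
lengths `3 l`, `l ≥ 2`, through the classes `0, 1, 2, 0, 1, 2, …`, and at most one further vertex `b`
is adjacent to all `d i`.  A flow is the same as a proper colouring of the edges of the circuits with
the three nonzero elements such that the three sums over the edges from class `i` to class `i + 1`
are equal, or pairwise different if `b` exists.  Such colourings are constructed, unless `b` exists and
there is a single circuit, of length six; then `H` is the Petersen graph.
-/

namespace Pool.Agent.Results.MP_aa6b05_co.DominationThree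

/-- The incidence vector of the vertex `v` over GF(2): the coordinate of an edge is the number of
its ends which are `v`, modulo 2 (so loops give 0). -/
def star {V E : Type} [DecidableEq V] (src dst : E → V) (v : V) : E → ZMod 2 :=
  fun e => (if src e = v then 1 else 0) + (if dst e = v then 1 else 0)

/-- The vectors `vec e` represent the cographic matroid of the graph: the linear relations between
them are exactly the elements of the cut space, which is spanned by the incidence vectors. -/
def RepresentsCographic {V E : Type} [DecidableEq V] [Fintype E] (src dst : E → V) {n : ℕ}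
    (vec : E → Fin n → ZMod 2) : Prop :=
  ∀ x : E → ZMod 2, ∑ e, x e • vec e = 0 ↔
    x ∈ Submodule.span (ZMod 2) (Set.range (star src dst))

/-- The simple matroid represented by the set `S` of vectors over GF(2) is a 2-block: `S` has no
zero vector and no linear map to the plane over GF(2) is nonzero on all of `S`. -/
def IsTwoBlock {n : ℕ} (S : Set (Fin n → ZMod 2)) : Prop :=
  (0 : Fin n → ZMod 2) ∉ S ∧
    ¬ ∃ L : (Fin n → ZMod 2) →ₗ[ZMod 2] (Fin 2 → ZMod 2), ∀ s ∈ S, L s ≠ 0

/-- `S` represents a tangential 2-block: it is a 2-block, and no proper minor without loops
(contract `C`, keep `T`) is a 2-block. This is the hypothesis of the frozen statement S10691. -/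
def IsTangential {n : ℕ} (S : Set (Fin n → ZMod 2)) : Prop :=
  IsTwoBlock S ∧
    ∀ C T : Set (Fin n → ZMod 2), C ⊆ S → T ⊆ S → T ≠ S →
      (∀ t ∈ T, t ∉ Submodule.span (ZMod 2) C) →
      ∃ L : (Fin n → ZMod 2) →ₗ[ZMod 2] (Fin 2 → ZMod 2),
        (∀ c ∈ C, L c = 0) ∧ ∀ t ∈ T, L t ≠ 0

/-- The cut space of the Petersen graph: vertices `0, ..., 9`, edges `0, ..., 14`. -/
def petersenCuts : Submodule (ZMod 2) (Fin 15 → ZMod 2) :=
  Submodule.span (ZMod 2) (Set.range (fun v : Fin 10 => fun k : Fin 15 =>
    if (![0,1,2,3,4,5,6,7,8,9,0,1,2,3,4] : Fin 15 → Fin 10) k = v ∨
       (![1,2,3,4,0,7,8,9,5,6,5,6,7,8,9] : Fin 15 → Fin 10) k = v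
    then (1 : ZMod 2) else 0))

/-- The edge `e` joins the vertices `x` and `y`. -/
def Joins {V E : Type} (src dst : E → V) (e : E) (x y : V) : Prop :=
  (src e = x ∧ dst e = y) ∨ (src e = y ∧ dst e = x)

/-- The vertices `x` and `y` are identified when circuits with at most four edges are contracted
as long as possible: the smallest equivalence relation such that, if `k ≤ 4` different edges
`e 0, …, e (k - 1)` join `x i` and `y i`, and `y i` is equivalent to `x (i + 1 mod k)`, then `x i` and
`y i` are equivalent. -/
inductive Tied {V E : Type} (src dst : E → V) : V → V → Prop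
  | refl (x : V) : Tied src dst x x
  | symm (x y : V) : Tied src dst x y → Tied src dst y x
  | trans (x y z : V) : Tied src dst x y → Tied src dst y z → Tied src dst x z
  | circuit (k : ℕ) (hk : k ≤ 4) (e : ℕ → E) (he : ∀ i < k, ∀ j < k, e i = e j → i = j)
      (x y : ℕ → V) (hxy : ∀ i < k, Joins src dst (e i) (x i) (y i))
      (hc : ∀ i < k, Tied src dst (y i) (x ((i + 1) % k))) (i : ℕ) (hi : i < k) :
      Tied src dst (x i) (y i)

/-- The vertices `d 0, d 1, d 2` dominate the graph, up to the contraction of short circuits: every
vertex `v` is tied to some `d i`, or it is tied to an end `x` of an edge whose other end `y` is tied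
to `d i`. (Since every vertex is tied to itself, this is so if every vertex is one of the `d i` or is
joined to one of them by an edge.) -/
def Dominate {V E : Type} (src dst : E → V) (d : Fin 3 → V) : Prop :=
  ∀ v, ∃ i, Tied src dst v (d i) ∨
    ∃ e x y, Joins src dst e x y ∧ Tied src dst v x ∧ Tied src dst y (d i)

/-- Let `S` be a set of vectors over GF(2) which represents the cographic matroid of a graph
(parallel elements are represented by the same vector).  Suppose that three vertices dominate the
graph, up to the contraction of circuits with at most four edges.  If `S` is a 2-block then `S`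
contains 15 different vectors which represent the cographic matroid of the Petersen graph; if `S`
is a tangential 2-block then `S` is the cographic matroid of the Petersen graph, in the form of the
frozen statement S10691. The second alternative of the hypothesis, that each vertex is one of the
`d i` or is joined to one of them by an edge, is a special case of the first one. -/
theorem result :
    ∀ (n : ℕ) (S : Set (Fin n → ZMod 2)) (V E : Type) [Fintype V] [DecidableEq V] [Fintype E]
      [DecidableEq E] (src dst : E → V) (vec : E → Fin n → ZMod 2) (d : Fin 3 → V),
      RepresentsCographic src dst vec → Set.range vec = S →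
      (Dominate src dst d ∨ ∀ v, ∃ i, v = d i ∨ ∃ e, Joins src dst e v (d i)) →
      (IsTwoBlock S → ∃ t : Fin 15 → Fin n → ZMod 2,
        Set.range t ⊆ S ∧ Function.Injective t ∧
        ∀ x : Fin 15 → ZMod 2, ∑ k, x k • t k = 0 ↔ x ∈ petersenCuts) ∧
      (IsTangential S → ∃ ψ : (Fin 15 → ZMod 2) →ₗ[ZMod 2] (Fin n → ZMod 2),
        LinearMap.ker ψ = petersenCuts ∧
        ⇑ψ '' Set.range (fun k : Fin 15 => (Pi.single k (1 : ZMod 2) : Fin 15 → ZMod 2)) = S) := by
  classical
  intro n S V E _ _ _ _ src dst vec d hv hr h3
  have hT : ∀ x y, Tied src dst x y → Pool.Agent.T9h67.DOM.Tied src dst x y := by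
    intro x y h
    induction h with
    | refl x => exact .refl x
    | symm x y _ ih => exact .symm x y ih
    | trans x y z _ _ ih1 ih2 => exact .trans x y z ih1 ih2
    | circuit k hk e he x y hxy _ i hi ih => exact .circuit k hk e he x y hxy ih i hi
  have hdom : ∀ v, ∃ i, Pool.Agent.T9h67.DOM.Tied src dst v (d i) ∨
      Pool.Agent.T9h67.DOM.TiedAdj src dst v (d i) := by
    intro v
    rcases h3 with h3 | h3
    · obtain ⟨i, hi | ⟨e, x, y, h4, h5, h6⟩⟩ := h3 v
      · exact ⟨i, Or.inl (hT _ _ hi)⟩
      · exact ⟨i, Or.inr ⟨e, x, y, h4, hT _ _ h5, hT _ _ h6⟩⟩
    · obtain ⟨i, hi | ⟨e, h4⟩⟩ := h3 v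
      · exact ⟨i, Or.inl (hi ▸ .refl _)⟩
      · exact ⟨i, Or.inr ⟨e, v, d i, h4, .refl _, .refl _⟩⟩
  have hd : Pool.Agent.TH362.TF.N1 src dst Finset.univ →
      Pool.Agent.TH362.TF.NZ src dst Finset.univ ∨
      Pool.Agent.TH362.TF.PQ src dst Finset.univ := fun hn =>
    Pool.Agent.T9h67.DOM.three src dst hn d hdom
  have main : IsTwoBlock S → ∃ t : Fin 15 → Fin n → ZMod 2,
        Set.range t ⊆ S ∧ Function.Injective t ∧
        ∀ x : Fin 15 → ZMod 2, ∑ k, x k • t k = 0 ↔ x ∈ petersenCuts := fun h =>
    Pool.Agent.R890.FF.blk1 (hv : Pool.Agent.TH676.Blk.RepCo src dst vec) hr hd h.1 h.2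
  refine ⟨main, ?_⟩
  rintro ⟨h2, htan⟩
  obtain ⟨t, ht, _, hx⟩ := main h2
  exact Pool.Agent.R890.FF.blk2 htan ht hx

end Pool.Agent.Results.MP_aa6b05_co.DominationThree
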