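import Mathlib
import Pool.Agent.T9h45.MM.Main
import Pool.Agent.N399.TB.Blk

set_option autoImplicit false

/-!
# Tangential 2-blocks over GF(2) and maximum matching width (MP_aa6b05_co)

Take a binary tree whose leaves are the vertices of a graph `G`.  Its maximum matching width is the
largest number of disjoint edges of `G` between the vertices below some node and the other vertices;
the maximum matching width `mmw(G)` is the minimum over all trees (Vatshelle; Jeong, Sæther, Telle).
One has `tw(G) + 1 ≤ 3 mmw(G)`, and `mmw(G)` is at most the branchwidth of `G` (if this is not 0).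

We prove: every 2-block over GF(2) which is the cographic matroid of a graph of maximum matching
width at most four has a minor `M*(P₁₀)`, and if it is tangential it is `M*(P₁₀)`.  So each
bridgeless graph of maximum matching width at most four without Petersen minor has a nowhere-zero
4-flow.  The number of vertices and the rank are arbitrary.  The class contains the Petersen graph,
all graphs of branchwidth at most four (`BranchwidthFour`), and graphs of treewidth up to eleven.

Proof.  Let `G` be a counterexample which is minimal for deletion and contraction.  By Kőnig's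
theorem the edges between `Y` and the rest are covered by four vertices, for each set `Y` of the
tree.  As `G` is internally 5-connected (`N399/TB/Sep4.sep4`), one side has at most two vertices
outside the cover, and hence at most six vertices.  As `G` has at least `18` vertices, some node of
the tree splits `G` into three sets of exactly six vertices; so `G` has exactly `18` vertices, all
of odd degree, and each of the three sets induces a tree with two adjacent cubic vertices and four
leaves.  So `G` arises from three such trees when their leaves are joined.  Each of these graphs has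
a nowhere-zero 4-flow or contains a circuit of length at most four or an edge cut with at most four
edges and three vertices on each side, so it is not minimal (`T9h45/MM`, new; by a search over
partial adjacency matrices of the `12` leaves, checked by the kernel, in which the flows are
3-edge-colourings of spanning cubic subgraphs and unions of even subgraphs).
-/

namespace Pool.Agent.Results.MP_aa6b05_co.MatchingWidthFour

open Pool.T9h45.MM

/-- The incidence vector of the vertex `v` over GF(2): the coordinate of an edge is the number of
its ends which are `v`, modulo 2 (so loops give 0). -/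
def star {V E : Type} [DecidableEq V] (src dst : E → V) (v : V) : E → ZMod 2 :=
  fun e => (if src e = v then 1 else 0) + (if dst e = v then 1 else 0)

/-- The vectors `vec e` represent the cographic matroid of the graph: the linear relations between
them are exactly the elements of the cut space, which is spanned by the incidence vectors. -/
def RepresentsCographic {V E : Type} [DecidableEq V] [Fintype E] (src dst : E → V) {n : ℕ}
    (vec : E → Fin n → ZMod 2) : Prop :=
  ∀ x : E → ZMod 2, ∑ e, x e • vec e = 0 ↔
    x ∈ Submodule.span (ZMod 2) (Set.range (star src dst))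

/-- The simple matroid represented by the set `S` of vectors over GF(2) is a 2-block: `S` has no
zero vector and no linear map to the plane over GF(2) is nonzero on all of `S`. -/
def IsTwoBlock {n : ℕ} (S : Set (Fin n → ZMod 2)) : Prop :=
  (0 : Fin n → ZMod 2) ∉ S ∧
    ¬ ∃ L : (Fin n → ZMod 2) →ₗ[ZMod 2] (Fin 2 → ZMod 2), ∀ s ∈ S, L s ≠ 0

/-- `S` represents a tangential 2-block: it is a 2-block, and no proper minor without loops
(contract `C`, keep `T`) is a 2-block. This is the hypothesis of the frozen statement S10691. -/
def IsTangential {n : ℕ} (S : Set (Fin n → ZMod 2)) : Prop :=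
  IsTwoBlock S ∧
    ∀ C T : Set (Fin n → ZMod 2), C ⊆ S → T ⊆ S → T ≠ S →
      (∀ t ∈ T, t ∉ Submodule.span (ZMod 2) C) →
      ∃ L : (Fin n → ZMod 2) →ₗ[ZMod 2] (Fin 2 → ZMod 2),
        (∀ c ∈ C, L c = 0) ∧ ∀ t ∈ T, L t ≠ 0

/-- The cut space of the Petersen graph: vertices `0, ..., 9`, edges `0, ..., 14`. -/
def petersenCuts : Submodule (ZMod 2) (Fin 15 → ZMod 2) :=
  Submodule.span (ZMod 2) (Set.range (fun v : Fin 10 => fun k : Fin 15 =>
    if (![0,1,2,3,4,5,6,7,8,9,0,1,2,3,4] : Fin 15 → Fin 10) k = v ∨
       (![1,2,3,4,0,7,8,9,5,6,5,6,7,8,9] : Fin 15 → Fin 10) k = v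
    then (1 : ZMod 2) else 0))

/-- The vertices `x` and `y` are joined by an edge. -/
def Joined {V E : Type} (src dst : E → V) (x y : V) : Prop :=
  ∃ e, (src e = x ∧ dst e = y) ∨ (src e = y ∧ dst e = x)

/-- There are `m` disjoint edges `x i, y i` of the graph with `x i` in `Y` and `y i` not in `Y`. -/
def HasMatching {V E : Type} (src dst : E → V) (m : ℕ) (Y : Finset V) : Prop :=
  ∃ x y : Fin m → V, Function.Injective x ∧ Function.Injective y ∧
    ∀ i, x i ∈ Y ∧ y i ∉ Y ∧ Joined src dst (x i) (y i)

/-- The tree `T` (with different leaves labelled by different vertices) has maximum matching width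
at most `k`: for the set `Y` of the labels below any node there are no `k + 1` disjoint edges between
`Y` and the other vertices. -/
def MatchingWidthLE {V E : Type} [DecidableEq V] (src dst : E → V) (k : ℕ) : LeafTree V → Prop
  | .leaf v => ¬ HasMatching src dst (k + 1) {v}
  | .node l r => Disjoint l.labels r.labels ∧
      ¬ HasMatching src dst (k + 1) (l.labels ∪ r.labels) ∧
      MatchingWidthLE src dst k l ∧ MatchingWidthLE src dst k r

/-- Conclusion: if `S` is a 2-block then the minor of `S` for some `C ⊆ S` and 15 elements of `S` is
the cographic matroid of the Petersen graph; if `S` is a tangential 2-block then `S` is the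
cographic matroid of the Petersen graph, in the form of the frozen statement S10691. -/
def Conclusion {n : ℕ} (S : Set (Fin n → ZMod 2)) : Prop :=
  (IsTwoBlock S → ∃ (C : Set (Fin n → ZMod 2)) (t : Fin 15 → Fin n → ZMod 2),
    C ⊆ S ∧ Set.range t ⊆ S ∧ Function.Injective t ∧
    ∀ x : Fin 15 → ZMod 2, ∑ k, x k • t k ∈ Submodule.span (ZMod 2) C ↔ x ∈ petersenCuts) ∧
  (IsTangential S → ∃ ψ : (Fin 15 → ZMod 2) →ₗ[ZMod 2] (Fin n → ZMod 2),
    LinearMap.ker ψ = petersenCuts ∧
    ⇑ψ '' Set.range (fun k : Fin 15 => (Pi.single k (1 : ZMod 2) : Fin 15 → ZMod 2)) = S)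

open Finset in
/-- Kőnig's theorem for the edges between `Y` and the other vertices -/
theorem cover {V E : Type} [Fintype V] [DecidableEq V] {src dst : E → V} {Y : Finset V}
    (h : ¬ HasMatching src dst 5 Y) : Cv src dst (Y : Set V) := by
  by_contra hno
  obtain ⟨A', hA', hcard, g, hg, hgi⟩ := konig (Joined src dst) Y Yᶜ 5 (by
    intro X hX
    by_contra hlt
    refine hno ⟨X, by omega, fun e he => ?_⟩
    rw [mem_coe, mem_coe] at he
    by_cases h1 : src e ∈ Y
    · have h2 : dst e ∉ Y := fun h2 => he ⟨fun _ => h2, fun _ => h1⟩
      exact hX _ h1 _ (mem_compl.2 h2) ⟨e, Or.inl ⟨rfl, rfl⟩⟩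
    · have h2 : dst e ∈ Y := by
        by_contra h2
        exact he ⟨fun h => absurd h h1, fun h => absurd h h2⟩
      exact (hX _ h2 _ (mem_compl.2 h1) ⟨e, Or.inr ⟨rfl, rfl⟩⟩).symm)
  obtain ⟨B, hB, hB5⟩ := exists_subset_card_eq hcard
  obtain ⟨φ⟩ : Nonempty (Fin 5 ≃ B) := ⟨(B.equivFinOfCardEq hB5).symm⟩
  refine h ⟨fun i => (φ i : V), fun i => g (φ i), fun i j hij => φ.injective (Subtype.ext hij),
    fun i j hij => φ.injective (Subtype.ext (hgi (hB (φ i).2) (hB (φ j).2) hij)), fun i => ?_⟩
  have h1 := hg _ (hB (φ i).2)
  exact ⟨hA' (hB (φ i).2), mem_compl.1 h1.1, h1.2⟩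

theorem covers {V E : Type} [Fintype V] [DecidableEq V] {src dst : E → V} : ∀ {T : LeafTree V},
    MatchingWidthLE src dst 4 T → ∀ Y ∈ T.sets, Cv src dst Y := by
  intro T
  induction T with
  | leaf v =>
    intro h Y hY
    have hY' : Y = {v} := hY
    have h1 := cover h
    rw [Finset.coe_singleton] at h1
    rw [hY']
    exact h1
  | node l r ihl ihr =>
    intro h Y hY
    obtain ⟨-, h1, h2, h3⟩ := h
    rcases hY with hY | hY | hY
    · have hY' : Y = ((l.labels ∪ r.labels : Finset V) : Set V) := hY
      rw [hY']
      exact cover h1
    · exact ihl h2 Y hY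
    · exact ihr h3 Y hY

/-- **Theorem.** Let `S` be a set of vectors over GF(2) which represents the cographic matroid of a
graph (parallel elements are represented by the same vector), and suppose that the graph has
maximum matching width at most four.  If `S` is a 2-block then it has a minor `M*(P₁₀)`; if `S` is
a tangential 2-block then `S` is `M*(P₁₀)`. -/
theorem result :
    ∀ (n : ℕ) (S : Set (Fin n → ZMod 2)) (V E : Type) [Fintype V] [DecidableEq V] [Fintype E]
      [DecidableEq E] (src dst : E → V) (vec : E → Fin n → ZMod 2),
      RepresentsCographic src dst vec → Set.range vec = S →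
      ∀ T : LeafTree V, T.labels = Finset.univ → MatchingWidthLE src dst 4 T → Conclusion S := by
  intro n S V E _ _ _ _ src dst vec hv hr T hT hW
  have hcls : ¬ Pool.Agent.TH676.T4.PetMinor src dst → Pool.Agent.TH462.T4.Br src dst ∅ ∅ →
      Pool.Agent.TH462.T4.FlowOn src dst ∅ ∅ := mm4 T hT (covers hW)
  refine ⟨fun h => Pool.Agent.N399.TB.blk_minor hv hr hcls h.1 h.2, fun h => ?_⟩
  obtain ⟨C, t, hC, ht, -, hx⟩ := Pool.Agent.N399.TB.blk_minor hv hr hcls h.1.1 h.1.2
  exact Pool.Agent.N399.TB.blk_tan h.2 hC ht hx

end Pool.Agent.Results.MP_aa6b05_co.MatchingWidthFour
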