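import Mathlib
import Pool.Agent.T9h45.TD.Rank
import Pool.Agent.N399.TB.Blk

set_option autoImplicit false

/-!
# Tangential 2-blocks over GF(2) and tree-depth (MP_aa6b05_co)

The tree-depth of the empty graph is 0, that of a connected graph `G` is one more than the minimum
of the tree-depths of the graphs `G - v`, and that of a disconnected graph is the maximum over its
components.

We prove: every 2-block over GF(2) which is the cographic matroid of a graph of tree-depth at most
seven has a minor `M*(P₁₀)`, and if it is tangential it is `M*(P₁₀)`.  So each bridgeless graph of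
tree-depth at most seven without Petersen minor has a nowhere-zero 4-flow.  The number of vertices,
the rank and the degrees are arbitrary; the class contains circuits of length up to `64`, all graphs
in which the deletion of five vertices leaves a star forest, and (for instance) all graphs with a
vertex cover of six elements.  The Petersen graph has tree-depth six.

Proof.  Let `G` be a counterexample which is minimal for deletion and contraction.  `G` has girth at
least five, at least `18` vertices, and if at most four vertices are deleted, then all but at most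
two of the others are in one component (`N399/TB/Sep4.sep4`).  Going down in the elimination tree
five times one gets a set `Z` of five vertices such that the components of `G - Z` are stars or have
at most two vertices.  Two vertices outside `Z` have at most one common neighbour, so that at most
ten of them have two neighbours in `Z`; a star whose centre has at most one neighbour in `Z` has
exactly two leaves, and its centre and its leaves together are joined to each vertex of `Z` exactly
once.  As there are at least `13` vertices outside `Z`, one finds that `G - Z` has exactly ten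
vertices with two neighbours in `Z`, one for each pair, and that they are divided into five classes:
two such vertices which are adjacent or have a common neighbour `c` outside `Z`, where `c` is
adjacent to the fifth vertex of `Z`.  The divisions of the ten pairs into classes are the six perfect
matchings of the Petersen graph, the Kneser graph of the pairs; and all the `6 * 2 ^ 5` graphs which
arise in this way have a nowhere-zero 4-flow (`T9h45/TD`, new).
-/

namespace Pool.Agent.Results.MP_aa6b05_co.TreeDepthSeven

open Pool.T9h45.TD

/-- The incidence vector of the vertex `v` over GF(2): the coordinate of an edge is the number of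
its ends which are `v`, modulo 2 (so loops give 0). -/
def star {V E : Type} [DecidableEq V] (src dst : E → V) (v : V) : E → ZMod 2 :=
  fun e => (if src e = v then 1 else 0) + (if dst e = v then 1 else 0)

/-- The vectors `vec e` represent the cographic matroid of the graph: the linear relations between
them are exactly the elements of the cut space, which is spanned by the incidence vectors. -/
def RepresentsCographic {V E : Type} [DecidableEq V] [Fintype E] (src dst : E → V) {n : ℕ}
    (vec : E → Fin n → ZMod 2) : Prop :=
  ∀ x : E → ZMod 2, ∑ e, x e • vec e = 0 ↔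
    x ∈ Submodule.span (ZMod 2) (Set.range (star src dst))

/-- The simple matroid represented by the set `S` of vectors over GF(2) is a 2-block: `S` has no
zero vector and no linear map to the plane over GF(2) is nonzero on all of `S`. -/
def IsTwoBlock {n : ℕ} (S : Set (Fin n → ZMod 2)) : Prop :=
  (0 : Fin n → ZMod 2) ∉ S ∧
    ¬ ∃ L : (Fin n → ZMod 2) →ₗ[ZMod 2] (Fin 2 → ZMod 2), ∀ s ∈ S, L s ≠ 0

/-- `S` represents a tangential 2-block: it is a 2-block, and no proper minor without loops
(contract `C`, keep `T`) is a 2-block. This is the hypothesis of the frozen statement S10691. -/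
def IsTangential {n : ℕ} (S : Set (Fin n → ZMod 2)) : Prop :=
  IsTwoBlock S ∧
    ∀ C T : Set (Fin n → ZMod 2), C ⊆ S → T ⊆ S → T ≠ S →
      (∀ t ∈ T, t ∉ Submodule.span (ZMod 2) C) →
      ∃ L : (Fin n → ZMod 2) →ₗ[ZMod 2] (Fin 2 → ZMod 2),
        (∀ c ∈ C, L c = 0) ∧ ∀ t ∈ T, L t ≠ 0

/-- The cut space of the Petersen graph: vertices `0, ..., 9`, edges `0, ..., 14`. -/
def petersenCuts : Submodule (ZMod 2) (Fin 15 → ZMod 2) :=
  Submodule.span (ZMod 2) (Set.range (fun v : Fin 10 => fun k : Fin 15 =>
    if (![0,1,2,3,4,5,6,7,8,9,0,1,2,3,4] : Fin 15 → Fin 10) k = v ∨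
       (![1,2,3,4,0,7,8,9,5,6,5,6,7,8,9] : Fin 15 → Fin 10) k = v
    then (1 : ZMod 2) else 0))

/-- The graph induced on the set `U` of vertices has tree-depth at most `k`: it is empty, or the
graph induced on `U - v` has tree-depth at most `k - 1` for some vertex `v`, or `U` is the union of
two disjoint sets not joined by an edge which induce graphs of tree-depth at most `k`. -/
inductive TreeDepthLE {V E : Type} [DecidableEq V] (src dst : E → V) : ℕ → Finset V → Prop
  | empty (k : ℕ) : TreeDepthLE src dst k ∅
  | vertex (k : ℕ) (U : Finset V) (v : V) :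
      TreeDepthLE src dst k (U.erase v) → TreeDepthLE src dst (k + 1) U
  | union (k : ℕ) (U W : Finset V) : Disjoint U W →
      (∀ e, ¬ (src e ∈ U ∧ dst e ∈ W) ∧ ¬ (src e ∈ W ∧ dst e ∈ U)) →
      TreeDepthLE src dst k U → TreeDepthLE src dst k W → TreeDepthLE src dst k (U ∪ W)

/-- Conclusion: if `S` is a 2-block then the minor of `S` for some `C ⊆ S` and 15 elements of `S` is
the cographic matroid of the Petersen graph; if `S` is a tangential 2-block then `S` is the
cographic matroid of the Petersen graph, in the form of the frozen statement S10691. -/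
def Conclusion {n : ℕ} (S : Set (Fin n → ZMod 2)) : Prop :=
  (IsTwoBlock S → ∃ (C : Set (Fin n → ZMod 2)) (t : Fin 15 → Fin n → ZMod 2),
    C ⊆ S ∧ Set.range t ⊆ S ∧ Function.Injective t ∧
    ∀ x : Fin 15 → ZMod 2, ∑ k, x k • t k ∈ Submodule.span (ZMod 2) C ↔ x ∈ petersenCuts) ∧
  (IsTangential S → ∃ ψ : (Fin 15 → ZMod 2) →ₗ[ZMod 2] (Fin n → ZMod 2),
    LinearMap.ker ψ = petersenCuts ∧
    ⇑ψ '' Set.range (fun k : Fin 15 => (Pi.single k (1 : ZMod 2) : Fin 15 → ZMod 2)) = S)

open Pool.Agent.TH676.T4 in
/-- the ranking of the vertices -/
theorem ranking {V E : Type} [DecidableEq V] {src dst : E → V} {k : ℕ} {U : Finset V}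
    (h : TreeDepthLE src dst k U) : ∃ ρ : V → ℕ, (∀ v ∈ U, ρ v < k) ∧
      ∀ B ⊆ U, ConnSet src dst B → ∃ m ∈ B, ∀ x ∈ B, x ≠ m → ρ m < ρ x := by
  induction h with
  | empty k =>
    refine ⟨fun _ => 0, fun v hv => absurd hv (Finset.notMem_empty v), fun B hB hc => ?_⟩
    obtain ⟨x, hx⟩ := hc.1
    exact absurd (hB hx) (Finset.notMem_empty x)
  | vertex k U v _ ih =>
    obtain ⟨ρ, h1, h2⟩ := ih
    refine ⟨fun x => if x = v then 0 else ρ x + 1, fun x hx => ?_, fun B hB hc => ?_⟩
    · change (if x = v then 0 else ρ x + 1) < k + 1
      by_cases hxv : x = v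
      · rw [if_pos hxv]; omega
      · rw [if_neg hxv]
        have := h1 x (Finset.mem_erase.2 ⟨hxv, hx⟩)
        omega
    · change ∃ m ∈ B, ∀ x ∈ B, x ≠ m → (if m = v then 0 else ρ m + 1) <
        if x = v then 0 else ρ x + 1
      by_cases hv : v ∈ B
      · refine ⟨v, hv, fun x _ hxv => ?_⟩
        rw [if_pos rfl, if_neg hxv]
        omega
      · have hne : ∀ x ∈ B, x ≠ v := fun x hx h => hv (h ▸ hx)
        obtain ⟨m, hm, hmin⟩ := h2 B (fun x hx => Finset.mem_erase.2 ⟨hne x hx, hB hx⟩) hc
        refine ⟨m, hm, fun x hx hxm => ?_⟩
        rw [if_neg (hne m hm), if_neg (hne x hx)]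
        have := hmin x hx hxm
        omega
  | union k U W hd hno _ _ ih1 ih2 =>
    obtain ⟨ρ1, h1, h2⟩ := ih1
    obtain ⟨ρ2, h3, h4⟩ := ih2
    refine ⟨fun x => if x ∈ U then ρ1 x else ρ2 x, fun x hx => ?_, fun B hB hc => ?_⟩
    · change (if x ∈ U then ρ1 x else ρ2 x) < k
      by_cases hxU : x ∈ U
      · rw [if_pos hxU]; exact h1 x hxU
      · rw [if_neg hxU]
        exact h3 x ((Finset.mem_union.1 hx).resolve_left hxU)
    · change ∃ m ∈ B, ∀ x ∈ B, x ≠ m → (if m ∈ U then ρ1 m else ρ2 m) <
        if x ∈ U then ρ1 x else ρ2 x
      have hone : B ⊆ U ∨ B ⊆ W := by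
        by_contra hcon
        rw [not_or] at hcon
        have hne : (B ∩ U).Nonempty := by
          rw [Finset.nonempty_iff_ne_empty]
          intro h0
          apply hcon.2
          intro x hx
          refine (Finset.mem_union.1 (hB hx)).resolve_left fun hxU => ?_
          have : x ∈ B ∩ U := Finset.mem_inter.2 ⟨hx, hxU⟩
          rw [h0] at this
          exact Finset.notMem_empty _ this
        obtain ⟨e, he⟩ := hc.2 (B ∩ U) Finset.inter_subset_left hne
          (fun h => hcon.1 (Finset.inter_eq_left.1 h))
        have key : ∀ x, x ∈ B \ (B ∩ U) → x ∈ W := by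
          intro x hx
          rw [Finset.mem_sdiff, Finset.mem_inter] at hx
          exact (Finset.mem_union.1 (hB hx.1)).resolve_left fun h => hx.2 ⟨hx.1, h⟩
        rcases he with ⟨a, b⟩ | ⟨a, b⟩
        · exact (hno e).1 ⟨(Finset.mem_inter.1 a).2, key _ b⟩
        · exact (hno e).2 ⟨key _ a, (Finset.mem_inter.1 b).2⟩
      rcases hone with h | h
      · obtain ⟨m, hm, hmin⟩ := h2 B h hc
        refine ⟨m, hm, fun x hx hxm => ?_⟩
        rw [if_pos (h hm), if_pos (h hx)]
        exact hmin x hx hxm
      · obtain ⟨m, hm, hmin⟩ := h4 B h hc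
        refine ⟨m, hm, fun x hx hxm => ?_⟩
        rw [if_neg (Finset.disjoint_right.1 hd (h hm)),
          if_neg (Finset.disjoint_right.1 hd (h hx))]
        exact hmin x hx hxm

/-- **Theorem.** Let `S` be a set of vectors over GF(2) which represents the cographic matroid of a
graph of tree-depth at most seven (parallel elements are represented by the same vector).  If `S` is
a 2-block then it has a minor `M*(P₁₀)`; if `S` is a tangential 2-block then `S` is `M*(P₁₀)`. -/
theorem result :
    ∀ (n : ℕ) (S : Set (Fin n → ZMod 2)) (V E : Type) [Fintype V] [DecidableEq V] [Fintype E]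
      [DecidableEq E] (src dst : E → V) (vec : E → Fin n → ZMod 2),
      RepresentsCographic src dst vec → Set.range vec = S →
      TreeDepthLE src dst 7 Finset.univ → Conclusion S := by
  intro n S V E _ _ _ _ src dst vec hv hr hT
  obtain ⟨ρ, h1, h2⟩ := ranking hT
  have hcls : ¬ Pool.Agent.TH676.T4.PetMinor src dst → Pool.Agent.TH462.T4.Br src dst ∅ ∅ →
      Pool.Agent.TH462.T4.FlowOn src dst ∅ ∅ :=
    td7 ⟨ρ, fun v => h1 v (Finset.mem_univ v), fun B hB => h2 B (Finset.subset_univ B) hB⟩
  refine ⟨fun h => Pool.Agent.N399.TB.blk_minor hv hr hcls h.1 h.2, fun h => ?_⟩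
  obtain ⟨C, t, hC, ht, -, hx⟩ := Pool.Agent.N399.TB.blk_minor hv hr hcls h.1.1 h.1.2
  exact Pool.Agent.N399.TB.blk_tan h.2 hC ht hx

end Pool.Agent.Results.MP_aa6b05_co.TreeDepthSeven
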